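import Pool.Agent.H95.L1.Fams

/-!
[H95 UL FAMS]  MP_8923e7_nt, THEOREM G (uniform laws): small monomials as sums of indicators of residue classes, uniformly in the
shifts `h j ≤ (log x)^B`.  Edited copies of `H95/L1/Fams.lean` and `H11/RG/Fam.lean`.
-/

namespace Pool.Agent.H95.UL

open Finset Filter Topology Pool.Agent.H92.MM Pool.Agent.H95.L1

theorem log_ltU (B a : ℝ) (ha : 0 < a) : ∀ᶠ x : ℝ in atTop, Real.log x ^ B < x ^ a := by
  have h1 := (isLittleO_log_rpow_rpow_atTop B ha).bound (show (0 : ℝ) < 1 / 2 by norm_num)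
  filter_upwards [h1, eventually_ge_atTop (3 : ℝ)] with x hx hx3
  have h2 : 0 ≤ Real.log x := Real.log_nonneg (by linarith)
  rw [Real.norm_of_nonneg (Real.rpow_nonneg h2 _),
    Real.norm_of_nonneg (Real.rpow_nonneg (by linarith) _)] at hx
  have h3 : 0 < x ^ a := Real.rpow_pos_of_pos (by linarith) _
  linarith

open Classical in
theorem famU {ι : Type} [Fintype ι] [DecidableEq ι] (L : ℕ) (a : ℝ) (ha : 0 < a) (B : ℝ)
    (η ε : ℝ) (hε : 0 < ε) :
    ∀ᶠ x : ℝ in atTop, ∀ h : ι → ℕ, Function.Injective h → (∀ j, (h j : ℝ) ≤ Real.log x ^ B) →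
      ∀ A : ι → Fin L → ℕ, sl a L A ≤ η →
      ∃ (κ : Type) (F : Finset κ) (q r : κ → ℕ),
        (∀ N : ℕ, sm x a L h A N = ∑ k ∈ F, if N % q k = r k % q k then (1 : ℝ) else 0) ∧
        (∀ k ∈ F, 0 < q k ∧ Squarefree (q k) ∧
          (∀ p : ℕ, p.Prime → p ∣ q k → x ^ a ≤ (p : ℝ) ∧ (p : ℝ) < x ^ (a * 2 ^ L)) ∧
          (q k : ℝ) ≤ x ^ sl a L A) ∧
        (∀ n : ℕ, (F.filter (fun k => q k = n)).card ≤ Fintype.card ι ^ n.primeFactors.card) ∧
        (∀ k ∈ F, ∀ j0 : ι, (∀ i, A j0 i = 0) → Nat.Coprime (r k + h j0) (q k)) ∧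
        (F.card : ℝ) ≤ x ^ sl a L A ∧
        |∑ k ∈ F, 1 / (q k : ℝ) - sv L A| ≤ ε := by
  have hfin := lev_finite (ι := ι) a η ha L
  have hev : ∀ᶠ x : ℝ in atTop, ∀ A ∈ {A : ι → Fin L → ℕ | sl a L A ≤ η},
      |GA (TI x a L) A - sv L A| ≤ ε := by
    rw [Filter.eventually_all_finite hfin]
    intro A _
    have h1 := GA_tendsto a ha L A
    have h2 := (Metric.tendsto_nhds.1 h1) ε hε
    filter_upwards [h2] with x hx
    rw [Real.dist_eq] at hx
    exact hx.le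
  have hxw : ∀ᶠ x : ℝ in atTop, Real.log x ^ B < x ^ a := log_ltU B a ha
  filter_upwards [hev, hxw, eventually_ge_atTop (1 : ℝ)] with x hGA hwx hx1
  intro h hinj hle A hA
  have hxpos : 0 < x := by linarith
  have hdiff : ∀ p : ℕ, x ^ a ≤ (p : ℝ) → ∀ i j : ι, i ≠ j → ¬ (p : ℤ) ∣ (h i : ℤ) - h j := by
    intro p hpx i j hij hdvd
    have hlt : ∀ j, h j < p := by
      intro j
      have h1 : (h j : ℝ) < p := lt_of_le_of_lt (hle j) (lt_of_lt_of_le hwx hpx)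
      exact_mod_cast h1
    have hi := hlt i
    have hj := hlt j
    have hne : (h i : ℤ) - h j ≠ 0 := by
      intro h0
      apply hij
      apply hinj
      have : (h i : ℤ) = h j := by linarith
      exact_mod_cast this
    have h2 := Int.le_of_dvd (abs_pos.2 hne) ((dvd_abs _ _).2 hdvd)
    have h3 : |(h i : ℤ) - h j| < p := by
      rw [abs_lt]
      constructor <;> omega
    omega
  have hTprime : ∀ i, ∀ p ∈ TI x a L i, p.Prime := fun i p hp => (mem_TI.1 hp).1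
  have hTd : ∀ i i', i ≠ i' → Disjoint (TI x a L i) (TI x a L i') :=
    fun i i' hii => TI_disj hx1 ha L i i' hii
  have hTh : ∀ i, ∀ p ∈ TI x a L i, ∀ j j', j ≠ j' → ¬ (p : ℤ) ∣ (h j : ℤ) - h j' :=
    fun i p hp => hdiff p (TI_ge hx1 ha hp)
  have hr : ∀ k : ι → Fin L → Finset ℕ, ∃ r : ℕ, k ∈ Fam (TI x a L) A →
      ∀ N, Dv h k N ↔ N % qk k = r % qk k := by
    intro k
    by_cases hk : k ∈ Fam (TI x a L) A
    · obtain ⟨r, hr⟩ := crt (TI x a L) A h hTprime k hk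
      exact ⟨r, fun _ => hr⟩
    · exact ⟨0, fun hk' => absurd hk' hk⟩
  choose r hr using hr
  refine ⟨ι → Fin L → Finset ℕ, Fam (TI x a L) A, qk, r, ?_, ?_, ?_, ?_, ?_, ?_⟩
  · intro N
    rw [sm_eq, cho_fam (TI x a L) A h hTd hTh N]
    apply sum_congr rfl
    intro k hk
    have h1 := hr k hk N
    by_cases hD : Dv h k N
    · rw [if_pos hD, if_pos (h1.1 hD)]
    · rw [if_neg hD, if_neg (fun h2 => hD (h1.2 h2))]
  · intro k hk
    have hkA := (mem_Fam.1 hk).1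
    refine ⟨qk_pos hTprime hkA, qk_squarefree hTprime hk, ?_, ?_⟩
    · intro p hp hpd
      obtain ⟨j, i, hpk⟩ := prime_dvd_qk hTprime hkA hp hpd
      have hpT := ((mem_All.1 hkA) j i).1 hpk
      refine ⟨TI_ge hx1 ha hpT, ?_⟩
      refine lt_of_lt_of_le (mem_TI.1 hpT).2.2 ?_
      apply Real.rpow_le_rpow_of_exponent_le hx1
      apply mul_le_mul_of_nonneg_left _ ha.le
      exact pow_le_pow_right₀ (by norm_num) (by have := i.2; omega)
    · refine (qk_le (fun i : Fin L => x ^ (a * 2 ^ ((i : ℕ) + 1)))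
        (fun i p hp => (mem_TI.1 hp).2.2.le) (fun i => by positivity) hkA).trans ?_
      rw [prod_level hxpos L A]
  · intro n
    exact num (TI x a L) A hTprime hTd n
  · intro k hk j0 hj0
    have hkA := (mem_Fam.1 hk).1
    have hDr : Dv h k (r k) := (hr k hk (r k)).2 rfl
    apply Nat.Coprime.symm
    apply Nat.coprime_of_dvd
    intro p hp hpq hpr
    obtain ⟨j, i, hpk⟩ := prime_dvd_qk hTprime hkA hp hpq
    have hpT := ((mem_All.1 hkA) j i)
    have hjj : j ≠ j0 := by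
      intro h1
      subst h1
      have h2 := hpT.2
      rw [hj0 i] at h2
      rw [card_eq_zero.1 h2] at hpk
      simp at hpk
    have h3 := hDr j i p hpk
    apply hdiff p (TI_ge hx1 ha (hpT.1 hpk)) j j0 hjj
    have h4 : ((p : ℤ)) ∣ ((r k + h j : ℕ) : ℤ) := Int.natCast_dvd_natCast.2 h3
    have h5 : ((p : ℤ)) ∣ ((r k + h j0 : ℕ) : ℤ) := Int.natCast_dvd_natCast.2 hpr
    have h6 := dvd_sub h4 h5
    push_cast at h6
    rwa [add_sub_add_left_eq_sub] at h6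
  · have h1 : ((Fam (TI x a L) A).card : ℝ) ≤ ((All (TI x a L) A).card : ℝ) := by
      have : Fam (TI x a L) A ⊆ All (TI x a L) A := fun k hk => (mem_Fam.1 hk).1
      exact_mod_cast card_le_card this
    refine h1.trans ((card_All_le (TI x a L) A (fun i => x ^ (a * 2 ^ ((i : ℕ) + 1)))
      (fun i => TI_card hx1 i)).trans ?_)
    rw [prod_level hxpos L A]
  · exact hGA A hA

/-- the form of `H11/RG/Fam.lean` -/
theorem fam11U {ι : Type} [Fintype ι] [DecidableEq ι] (a : ℝ) (L : ℕ) (ha : 0 < a) (B : ℝ)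
    (η ε : ℝ) (hε : 0 < ε) :
    ∀ᶠ x : ℝ in atTop, ∀ h : ι → ℕ, Function.Injective h → (∀ j, (h j : ℝ) ≤ Real.log x ^ B) →
      ∀ A : ι → Fin L → ℕ, sl a L A ≤ η →
      ∃ (κ : Type) (Fam : Finset κ) (q r : κ → ℕ),
        (∀ N : ℕ, 0 < N → sm x a L h A N =
          ∑ k ∈ Fam, if N % q k = r k % q k then (1 : ℝ) else 0) ∧
        (∀ k ∈ Fam, 0 < q k ∧ (q k : ℝ) ≤ x ^ η ∧
          ∀ p : ℕ, p.Prime → p ∣ q k → x ^ a ≤ (p : ℝ) ∧ (p : ℝ) < x ^ (a * 2 ^ L)) ∧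
        (Fam.card : ℝ) ≤ x ^ η ∧ |∑ k ∈ Fam, (1 : ℝ) / q k - sv L A| ≤ ε := by
  filter_upwards [famU (ι := ι) L a ha B η ε hε, eventually_ge_atTop (1 : ℝ)] with
    x hx hx1 h hinj hle' A hA
  obtain ⟨κ, F, q, r, f1, f2, -, -, f5, f6⟩ := hx h hinj hle' A hA
  have hle : x ^ sl a L A ≤ x ^ η := Real.rpow_le_rpow_of_exponent_le hx1 hA
  exact ⟨κ, F, q, r, fun N _ => f1 N, fun k hk => ⟨(f2 k hk).1, ((f2 k hk).2.2.2).trans hle,
    (f2 k hk).2.2.1⟩, f5.trans hle, f6⟩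

end Pool.Agent.H95.UL
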