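import Pool.Agent.H95.L1.Nrm

/-!
[H95 UL NRM]  MP_8923e7_nt, THEOREM G (uniform laws): normalisation and presieve for a general modulus `W`
(`primorial w ∣ W`, `W ≤ (log x)^A`), uniformly in `W`.  Edited copies of `H95/L1/Nrm.lean` and `H95/L1/Adm.lean`.
-/

namespace Pool.Agent.H95.UL

open Finset Filter Topology Pool.Agent.H92.MM Pool.Agent.H95.L1

theorem nm_geU (K w : ℕ) (hw : 2 * K ≤ w) (A a κ : ℝ) (ha : 0 < a) (ha1 : a ≤ 1) (hκ : 0 < κ) :
    ∀ᶠ x : ℝ in atTop, ∀ W : ℕ, 0 < W → primorial w ∣ W → (W : ℝ) ≤ Real.log x ^ A →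
      x ^ (1 - κ) ≤ nm x a W K := by
  obtain ⟨C, hC, hmer⟩ := Pool.Agent.H75.AP.mertens_upper
  set c : ℝ := 1 / (8 * Real.exp (2 * K * C)) with hc
  have hcpos : 0 < c := by positivity
  have hlog : ∀ᶠ x : ℝ in atTop, Real.log x ^ (2 * (K : ℝ) + A) ≤ c * x ^ κ := by
    have h1 := (isLittleO_log_rpow_rpow_atTop (2 * (K : ℝ) + A) hκ).bound hcpos
    filter_upwards [h1, eventually_ge_atTop (3 : ℝ)] with x hx hx3
    have h2 : 0 ≤ Real.log x := Real.log_nonneg (by linarith)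
    rw [Real.norm_of_nonneg (Real.rpow_nonneg h2 _),
      Real.norm_of_nonneg (Real.rpow_nonneg (by linarith) _)] at hx
    exact hx
  have hx3 : ∀ᶠ x : ℝ in atTop, (3 : ℝ) ≤ x ^ a := (tendsto_rpow_atTop ha).eventually_ge_atTop _
  filter_upwards [hlog, hx3, mass_ge, eventually_ge_atTop (3 : ℝ)] with x hlx hxa hmass hx
  intro W hW0 hwW hWle
  have hW1 : (0 : ℝ) < W := by exact_mod_cast hW0
  have hx0 : 0 < x := by linarith
  have hlx1 : 1 ≤ Real.log x := by
    rw [Real.le_log_iff_exp_le hx0]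
    linarith [Real.exp_one_lt_d9]
  -- the sum over the presieve primes
  have hsum : ∑ p ∈ PP x a W, 1 / (p : ℝ) ≤ Real.log (Real.log x) + C := by
    have h1 : ∑ p ∈ PP x a W, 1 / (p : ℝ) ≤ ∑ p ∈ Pool.Agent.H75.AP.PI 0 (x ^ a), 1 / (p : ℝ) := by
      apply sum_le_sum_of_subset_of_nonneg
      · intro p hp
        have hp' := mem_PP.1 hp
        rw [Pool.Agent.H75.AP.MertB.mem_PI le_rfl]
        exact ⟨hp'.1, by exact_mod_cast hp'.1.pos, hp'.2.2.le⟩
      · intro p _ _
        positivity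
    have h2 := hmer (x ^ a) hxa
    have h3 : Real.log (Real.log (x ^ a)) ≤ Real.log (Real.log x) := by
      rw [Real.log_rpow hx0]
      apply Real.log_le_log (by positivity)
      nlinarith
    linarith
  have hKp : ∀ p ∈ PP x a W, 0 < (p : ℝ) ∧ (K : ℝ) / p ≤ 1 / 2 := by
    intro p hp
    have hp' := mem_PP.1 hp
    have hp0 : (0 : ℝ) < p := by exact_mod_cast hp'.1.pos
    have hwp : w < p := by
      by_contra hle
      push Not at hle
      exact hp'.2.1 (((hp'.1.dvd_primorial_iff).2 hle).trans hwW)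
    refine ⟨hp0, ?_⟩
    rw [div_le_iff₀ hp0]
    have : (2 : ℝ) * K ≤ p := by exact_mod_cast hw.trans hwp.le
    linarith
  have hV : Real.exp (-(2 * K * (Real.log (Real.log x) + C))) ≤
      Pool.Agent.H95.FL.vv (fun p => (K : ℝ) / p) (PP x a W) := by
    have h1 : Real.exp (-(2 * K * (Real.log (Real.log x) + C))) ≤
        Real.exp (∑ p ∈ PP x a W, -(2 * ((K : ℝ) / p))) := by
      apply Real.exp_le_exp.2
      have h2 : ∑ p ∈ PP x a W, -(2 * ((K : ℝ) / p)) = -(2 * K * ∑ p ∈ PP x a W, 1 / (p : ℝ)) := by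
        rw [sum_neg_distrib, mul_sum]
        congr 1
        apply sum_congr rfl
        intro p _
        ring
      rw [h2]
      apply neg_le_neg
      apply mul_le_mul_of_nonneg_left hsum (by positivity)
    refine h1.trans ?_
    rw [Real.exp_sum]
    unfold Pool.Agent.H95.FL.vv
    apply Finset.prod_le_prod
    · intro p _
      exact (Real.exp_pos _).le
    · intro p hp
      obtain ⟨hp0, ht⟩ := hKp p hp
      set t : ℝ := (K : ℝ) / p with htdef
      have ht0 : 0 ≤ t := by positivity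
      have h3 : 1 + 2 * t ≤ Real.exp (2 * t) := by
        have := Real.add_one_le_exp (2 * t)
        linarith
      have h4 : Real.exp (-(2 * t)) * Real.exp (2 * t) = 1 := by
        rw [← Real.exp_add, neg_add_cancel, Real.exp_zero]
      have h5 := Real.exp_pos (-(2 * t))
      have h6 : Real.exp (-(2 * t)) * (1 + 2 * t) ≤ 1 :=
        (mul_le_mul_of_nonneg_left h3 h5.le).trans h4.le
      have h7 : (1 : ℝ) ≤ (1 - t) * (1 + 2 * t) := by nlinarith
      by_contra hlt
      push Not at hlt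
      have h8 : (1 - t) * (1 + 2 * t) < Real.exp (-(2 * t)) * (1 + 2 * t) :=
        mul_lt_mul_of_pos_right hlt (by linarith)
      linarith
  have hexp : Real.exp (-(2 * K * (Real.log (Real.log x) + C))) =
      (Real.exp (2 * K * C))⁻¹ * (Real.log x ^ (2 * (K : ℝ)))⁻¹ := by
    rw [Real.rpow_def_of_pos (by linarith : (0 : ℝ) < Real.log x), ← Real.exp_neg, ← Real.exp_neg,
      ← Real.exp_add]
    congr 1
    ring
  have hlpos : 0 < Real.log x ^ (2 * (K : ℝ)) := Real.rpow_pos_of_pos (by linarith) _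
  have hWlog : (W : ℝ) * Real.log x ^ (2 * (K : ℝ)) ≤ c * x ^ κ := by
    refine le_trans ?_ hlx
    rw [Real.rpow_add (by linarith : (0 : ℝ) < Real.log x), mul_comm]
    exact mul_le_mul_of_nonneg_left hWle hlpos.le
  rw [nm_eq]
  have hxk : x ^ (1 - κ) * x ^ κ = x := by
    rw [← Real.rpow_add hx0]
    simp
  have hxk0 : 0 < x ^ (1 - κ) := Real.rpow_pos_of_pos hx0 _
  have hxk1 : 0 < x ^ κ := Real.rpow_pos_of_pos hx0 _
  calc x ^ (1 - κ) = x * (x ^ κ)⁻¹ := by
        field_simp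
        exact hxk
    _ ≤ x * (c * ((W : ℝ) * Real.log x ^ (2 * (K : ℝ)))⁻¹) := by
        apply mul_le_mul_of_nonneg_left _ hx0.le
        rw [← div_eq_mul_inv c, inv_eq_one_div, div_le_div_iff₀ hxk1 (by positivity)]
        linarith
    _ = x / 8 / W * ((Real.exp (2 * K * C))⁻¹ * (Real.log x ^ (2 * (K : ℝ)))⁻¹) := by
        rw [hc]
        field_simp
    _ ≤ mass x / W * Pool.Agent.H95.FL.vv (fun p => (K : ℝ) / p) (PP x a W) := by
        rw [← hexp]
        apply mul_le_mul _ hV (Real.exp_pos _).le (by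
          have : 0 ≤ mass x := by linarith
          positivity)
        apply div_le_div_of_nonneg_right hmass hW1.le

theorem adm_iffU {ι : Type} [Fintype ι] (x a : ℝ) (h : ι → ℕ) (W b : ℕ)
    (hb : ∀ j, Nat.Coprime (b + h j) W) (N : ℕ) :
    Adm x a h W b N ↔ N % W = b % W ∧ Pool.Agent.H95.FL.DP h (PP x a W) N = ∅ := by
  classical
  unfold Adm
  refine and_congr_right fun hN => ?_
  have hmod : N ≡ b [MOD W] := hN
  have hmem : ∀ p, p ∈ Pool.Agent.H95.FL.DP h (PP x a W) N ↔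
      p ∈ PP x a W ∧ ∃ i, p ∣ N + h i := by
    intro p
    unfold Pool.Agent.H95.FL.DP
    simp only [Finset.mem_filter]
  have hDP : Pool.Agent.H95.FL.DP h (PP x a W) N = ∅ ↔
      ∀ p ∈ PP x a W, ¬ ∃ i, p ∣ N + h i := by
    rw [Finset.eq_empty_iff_forall_notMem]
    constructor
    · intro h0 p hp hex
      exact h0 p ((hmem p).2 ⟨hp, hex⟩)
    · intro h0 p hp
      exact h0 p ((hmem p).1 hp).1 ((hmem p).1 hp).2
  rw [hDP]
  constructor
  · rintro h1 p hp ⟨j, hj⟩
    obtain ⟨hpp, -, hlt⟩ := mem_PP.1 hp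
    exact absurd (h1 j p hpp hj) (not_le.2 hlt)
  · intro h1 j p hp hj
    by_contra hlt
    have hW : ¬ p ∣ W := by
      intro hW
      have h2 : N + h j ≡ b + h j [MOD p] := (hmod.of_dvd hW).add_right _
      have h3 : p ∣ b + h j := (Nat.ModEq.dvd_iff h2 dvd_rfl).1 hj
      exact hp.ne_one (Nat.dvd_one.1 ((hb j) ▸ Nat.dvd_gcd h3 hW))
    exact h1 p (mem_PP.2 ⟨hp, hW, not_le.1 hlt⟩) ⟨j, hj⟩

end Pool.Agent.H95.UL
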