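import Pool.Agent.H21.SH.Up

/-!
[H95 UL PT]  MP_8923e7_nt, THEOREM G (uniform laws): the pointwise comparison of the weights, uniformly in the shift `h ≤ (log x)^B`.
Edited copies of `lo_pt` (`H21/SH/Lo.lean`) and `up_pt` (`H21/SH/Up.lean`).
-/

namespace Pool.Agent.H95.UL

open Finset Filter Pool.Agent.H21.MT Pool.Agent.H21.SH

/-- the eventual smallness used in the pointwise bounds, uniform in the shift -/
theorem lo_smallU (J : ℕ) (B c : ℝ) (hc : 0 < c) : ∀ᶠ x : ℝ in atTop, ∀ h : ℕ,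
    (h : ℝ) ≤ Real.log x ^ B →
    ((J : ℝ) + 1) * (Real.log (Real.log x) / Real.log x) +
      (h : ℝ) * ((2 * Real.log x + 1) / Real.sqrt x) ≤ c := by
  have h1 : Tendsto (fun x : ℝ => Real.log (Real.log x) / Real.log x) atTop (nhds 0) := by
    have h2 : Tendsto (fun y : ℝ => Real.log y / y) atTop (nhds 0) :=
      Real.isLittleO_log_id_atTop.tendsto_div_nhds_zero
    exact h2.comp Real.tendsto_log_atTop
  have h3 : ∀ᶠ x : ℝ in atTop, ((J : ℝ) + 1) * (Real.log (Real.log x) / Real.log x) ≤ c / 2 := by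
    have h4 := h1.const_mul ((J : ℝ) + 1)
    rw [mul_zero] at h4
    exact h4.eventually_le_const (half_pos hc)
  have h5 : ∀ᶠ x : ℝ in atTop, Real.log x ^ (B + 1) ≤ c / 6 * x ^ (1 / 2 : ℝ) := by
    have h6 := (isLittleO_log_rpow_rpow_atTop (B + 1) (show (0 : ℝ) < 1 / 2 by norm_num)).bound
      (show 0 < c / 6 by positivity)
    filter_upwards [h6, eventually_ge_atTop (3 : ℝ)] with x hx hx3
    have h2 : 0 ≤ Real.log x := Real.log_nonneg (by linarith)
    rw [Real.norm_of_nonneg (Real.rpow_nonneg h2 _),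
      Real.norm_of_nonneg (Real.rpow_nonneg (by linarith) _)] at hx
    exact hx
  filter_upwards [h3, h5, eventually_ge_atTop (3 : ℝ)] with x h3 h5 hx h hh
  have hx0 : 0 < x := by linarith
  have hL : 1 ≤ Real.log x := by
    rw [Real.le_log_iff_exp_le hx0]
    linarith [Real.exp_one_lt_d9]
  have hs : 0 < Real.sqrt x := Real.sqrt_pos.2 hx0
  have h7 : (h : ℝ) * ((2 * Real.log x + 1) / Real.sqrt x) ≤ c / 2 := by
    rw [mul_div_assoc', div_le_iff₀ hs, Real.sqrt_eq_rpow]
    have h8 : (h : ℝ) * (2 * Real.log x + 1) ≤ Real.log x ^ B * (3 * Real.log x) := by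
      apply mul_le_mul hh (by linarith) (by linarith)
      exact Real.rpow_nonneg (by linarith) _
    have h9 : Real.log x ^ (B + 1) = Real.log x ^ B * Real.log x := by
      rw [Real.rpow_add (by linarith), Real.rpow_one]
    rw [h9] at h5
    nlinarith
  linarith

theorem sq_leU (B : ℝ) : ∀ᶠ x : ℝ in atTop, ∀ h : ℕ, (h : ℝ) ≤ Real.log x ^ B →
    (h : ℝ) ^ 2 ≤ x ∧ (h : ℝ) ≤ Real.sqrt x ∧ (h : ℝ) ≤ x := by
  have h6 := (isLittleO_log_rpow_rpow_atTop B (show (0 : ℝ) < 1 / 2 by norm_num)).bound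
      (show (0 : ℝ) < 1 by norm_num)
  filter_upwards [h6, eventually_ge_atTop (3 : ℝ)] with x hx hx3 h hh
  have hx0 : 0 < x := by linarith
  have h2 : 0 ≤ Real.log x := Real.log_nonneg (by linarith)
  rw [Real.norm_of_nonneg (Real.rpow_nonneg h2 _),
    Real.norm_of_nonneg (Real.rpow_nonneg (by linarith) _), one_mul, ← Real.sqrt_eq_rpow] at hx
  have h3 : (h : ℝ) ≤ Real.sqrt x := hh.trans hx
  have h4 : (0 : ℝ) ≤ h := Nat.cast_nonneg _
  have h5 : (h : ℝ) ^ 2 ≤ x := by
    calc (h : ℝ) ^ 2 ≤ (Real.sqrt x) ^ 2 := pow_le_pow_left₀ h4 h3 2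
      _ = x := Real.sq_sqrt hx0.le
  refine ⟨h5, h3, h3.trans ?_⟩
  rw [Real.sqrt_le_left hx0.le]
  nlinarith

theorem lo_ptU (J A : ℕ) (B ε : ℝ) (hε : 0 < ε) : ∀ᶠ x : ℝ in atTop, ∀ h : ℕ,
    (h : ℝ) ≤ Real.log x ^ B → ∀ N ∈ Win x,
    (Real.log (N + h : ℕ)) ^ (J + 1) * gw x (N + h) ≤
      (Real.log x) ^ (J + 1) * ((1 + ε) * gw x N + wN x N / (Real.log x) ^ A) := by
  have hL : ∀ᶠ x : ℝ in atTop, ((J : ℝ) + 1) ≤ Real.log x :=
    Real.tendsto_log_atTop.eventually_ge_atTop _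
  have hLL : ∀ᶠ x : ℝ in atTop, 4 * (A : ℝ) + 7 ≤ Real.log (Real.log x) :=
    (Real.tendsto_log_atTop.comp Real.tendsto_log_atTop).eventually_ge_atTop _
  have hlε : 0 < Real.log (1 + ε) := Real.log_pos (by linarith)
  filter_upwards [hL, hLL, lo_smallU J B _ hlε, eventually_ge_atTop (1 : ℝ),
    sq_leU B] with x hx hxx hsm hx1 hxh h hh N hN
  replace hsm := hsm h hh
  replace hxh := (hxh h hh).1
  obtain ⟨e1, d0, d1, d2, hlogN⟩ := lo_uu h hx1 hxh hN
  have hx0 : 0 < x := by linarith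
  have hJ0 : (0 : ℝ) ≤ (J : ℝ) := Nat.cast_nonneg _
  have hLpos : 0 < Real.log x := by linarith
  have hsq : 0 < Real.sqrt x := Real.sqrt_pos.2 hx0
  unfold gw wN
  obtain ⟨L, hLdef⟩ : ∃ L, L = Real.log x := ⟨_, rfl⟩
  obtain ⟨u, hu⟩ : ∃ u, u = Real.log (N / x) := ⟨_, rfl⟩
  obtain ⟨u', hu'⟩ : ∃ u', u' = Real.log (((N + h : ℕ) : ℝ) / x) := ⟨_, rfl⟩
  rw [e1] at hlogN
  rw [e1, ← hu', ← hu, ← hLdef]
  rw [← hu', ← hu] at d0 d1 d2
  rw [← hu', ← hLdef] at hlogN
  rw [← hLdef] at hx hxx hsm hLpos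
  have hlL0 : 0 < Real.log L := by
    have : (0 : ℝ) ≤ A := Nat.cast_nonneg _
    linarith
  have hlLL : Real.log L ≤ L := (Real.log_le_sub_one_of_pos hLpos).trans (by linarith)
  -- the power
  have hp1 : L + u' ≤ L * Real.exp (|u'| / L) := by
    have h1 : 1 + |u'| / L ≤ Real.exp (|u'| / L) := by
      have := Real.add_one_le_exp (|u'| / L)
      linarith
    have h2 : L * (1 + |u'| / L) = L + |u'| := by
      field_simp
    have h3 : L * (1 + |u'| / L) ≤ L * Real.exp (|u'| / L) :=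
      mul_le_mul_of_nonneg_left h1 hLpos.le
    have := le_abs_self u'
    linarith
  have hp2 : (L + u') ^ (J + 1) ≤ L ^ (J + 1) * Real.exp (((J + 1 : ℕ) : ℝ) * (|u'| / L)) := by
    calc (L + u') ^ (J + 1) ≤ (L * Real.exp (|u'| / L)) ^ (J + 1) :=
          pow_le_pow_left₀ hlogN hp1 _
      _ = L ^ (J + 1) * Real.exp (((J + 1 : ℕ) : ℝ) * (|u'| / L)) := by
          rw [mul_pow, Real.exp_nat_mul]
  have hLJ : 0 < L ^ (J + 1) := by positivity
  have hw0 : 0 ≤ Real.exp (-u ^ 2 / 4) / L ^ A := by positivity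
  have hg0 : 0 ≤ (1 + ε) * Real.exp (-u ^ 2 / 2) := by positivity
  have habs : |u| ≤ |u'| + 1 := by
    rw [abs_le]
    constructor
    · have := neg_abs_le u'
      linarith
    · have := le_abs_self u'
      linarith
  rcases le_or_gt |u'| (Real.log L) with hcase | hcase
  · -- case (a)
    have h1 : (L + u') ^ (J + 1) * Real.exp (-u' ^ 2 / 2) ≤
        L ^ (J + 1) * ((1 + ε) * Real.exp (-u ^ 2 / 2)) := by
      calc (L + u') ^ (J + 1) * Real.exp (-u' ^ 2 / 2)
          ≤ (L ^ (J + 1) * Real.exp (((J + 1 : ℕ) : ℝ) * (|u'| / L))) * Real.exp (-u' ^ 2 / 2) :=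
            mul_le_mul_of_nonneg_right hp2 (Real.exp_pos _).le
        _ = L ^ (J + 1) * Real.exp (((J + 1 : ℕ) : ℝ) * (|u'| / L) + -u' ^ 2 / 2) := by
            rw [mul_assoc, ← Real.exp_add]
        _ ≤ L ^ (J + 1) * Real.exp (Real.log (1 + ε) + -u ^ 2 / 2) := by
            apply mul_le_mul_of_nonneg_left (Real.exp_le_exp.2 ?_) hLJ.le
            have h3 : ((J + 1 : ℕ) : ℝ) * (|u'| / L) ≤ ((J : ℝ) + 1) * (Real.log L / L) := by
              push_cast
              gcongr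
            have h4 : (u ^ 2 - u' ^ 2) / 2 ≤ (h : ℝ) * ((2 * L + 1) / Real.sqrt x) := by
              have h5 : u ^ 2 - u' ^ 2 ≤ (u' - u) * (2 * L + 1) := by
                have h6 : u ^ 2 - u' ^ 2 = (u' - u) * (-(u + u')) := by ring
                rw [h6]
                apply mul_le_mul_of_nonneg_left _ d0
                have := neg_abs_le u
                have := neg_abs_le u'
                linarith
              have h7 : (u' - u) * (2 * L + 1) ≤ ((h : ℝ) / Real.sqrt x) * (2 * L + 1) :=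
                mul_le_mul_of_nonneg_right d2 (by linarith)
              have h8 : ((h : ℝ) / Real.sqrt x) * (2 * L + 1) =
                  (h : ℝ) * ((2 * L + 1) / Real.sqrt x) := by ring
              have h9 : 0 ≤ (h : ℝ) * ((2 * L + 1) / Real.sqrt x) := by positivity
              linarith
            linarith
        _ = L ^ (J + 1) * ((1 + ε) * Real.exp (-u ^ 2 / 2)) := by
            rw [Real.exp_add, Real.exp_log (by linarith)]
    refine h1.trans ?_
    apply mul_le_mul_of_nonneg_left _ hLJ.le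
    linarith
  · -- case (b)
    have h1 : (L + u') ^ (J + 1) * Real.exp (-u' ^ 2 / 2) ≤
        L ^ (J + 1) * (Real.exp (-u ^ 2 / 4) / L ^ A) := by
      have hLA : L ^ A = Real.exp (A * Real.log L) := by
        rw [Real.exp_nat_mul, Real.exp_log hLpos]
      calc (L + u') ^ (J + 1) * Real.exp (-u' ^ 2 / 2)
          ≤ (L ^ (J + 1) * Real.exp (((J + 1 : ℕ) : ℝ) * (|u'| / L))) * Real.exp (-u' ^ 2 / 2) :=
            mul_le_mul_of_nonneg_right hp2 (Real.exp_pos _).le
        _ = L ^ (J + 1) * Real.exp (((J + 1 : ℕ) : ℝ) * (|u'| / L) + -u' ^ 2 / 2) := by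
            rw [mul_assoc, ← Real.exp_add]
        _ ≤ L ^ (J + 1) * Real.exp (-u ^ 2 / 4 - A * Real.log L) := by
            apply mul_le_mul_of_nonneg_left (Real.exp_le_exp.2 ?_) hLJ.le
            have h3 : ((J + 1 : ℕ) : ℝ) * (|u'| / L) ≤ |u'| := by
              have h5 : ((J + 1 : ℕ) : ℝ) * (|u'| / L) = (((J + 1 : ℕ) : ℝ) / L) * |u'| := by
                field_simp
              rw [h5]
              have h4 : ((J + 1 : ℕ) : ℝ) / L ≤ 1 := by
                rw [div_le_one hLpos]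
                push_cast
                exact hx
              calc ((J + 1 : ℕ) : ℝ) / L * |u'| ≤ 1 * |u'| :=
                    mul_le_mul_of_nonneg_right h4 (abs_nonneg _)
                _ = |u'| := one_mul _
            have hA0 : (0 : ℝ) ≤ A := Nat.cast_nonneg _
            have hb : u ^ 2 ≤ (|u'| + 1) ^ 2 := by
              rw [← sq_abs u]
              exact pow_le_pow_left₀ (abs_nonneg _) habs 2
            have hc : u' ^ 2 = |u'| ^ 2 := (sq_abs u').symm
            have ht : 4 * (A : ℝ) + 7 ≤ |u'| := by linarith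
            have hAt : A * Real.log L ≤ A * |u'| := mul_le_mul_of_nonneg_left hcase.le hA0
            rw [hc]
            nlinarith [mul_le_mul_of_nonneg_right ht (abs_nonneg u')]
        _ = L ^ (J + 1) * (Real.exp (-u ^ 2 / 4) / L ^ A) := by
            rw [Real.exp_sub, hLA]
    refine h1.trans ?_
    apply mul_le_mul_of_nonneg_left _ hLJ.le
    linarith

theorem up_ptU (J A : ℕ) (B ε : ℝ) (hε : 0 < ε) : ∀ᶠ x : ℝ in atTop, ∀ h : ℕ,
    (h : ℝ) ≤ Real.log x ^ B → ∀ N ∈ Win x,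
    gw x N ≤ (1 + ε) / (Real.log x) ^ (J + 1) *
      ((Real.log (N + h : ℕ)) ^ (J + 1) * gw x (N + h)) + wN x N / (Real.log x) ^ A := by
  have hL : ∀ᶠ x : ℝ in atTop, (1 : ℝ) ≤ Real.log x :=
    Real.tendsto_log_atTop.eventually_ge_atTop _
  have hLL : ∀ᶠ x : ℝ in atTop, 4 * (A : ℝ) + 1 ≤ Real.log (Real.log x) :=
    (Real.tendsto_log_atTop.comp Real.tendsto_log_atTop).eventually_ge_atTop _
  have hlε : 0 < Real.log (1 + ε) := Real.log_pos (by linarith)
  filter_upwards [hL, hLL, lo_smallU J B _ (half_pos hlε), lo_small 0 0 (1 / 2) (by norm_num),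
    eventually_ge_atTop (1 : ℝ), sq_leU B]
    with x hx hxx hsm hsm2 hx1 hxh h hh N hN
  replace hsm := hsm h hh
  replace hxh := (hxh h hh).1
  obtain ⟨e1, d0, d1, d2, hlogN⟩ := lo_uu h hx1 hxh hN
  have hx0 : 0 < x := by linarith
  have hJ0 : (0 : ℝ) ≤ (J : ℝ) := Nat.cast_nonneg _
  have hLpos : 0 < Real.log x := by linarith
  have hsq : 0 < Real.sqrt x := Real.sqrt_pos.2 hx0
  unfold gw wN
  obtain ⟨L, hLdef⟩ : ∃ L, L = Real.log x := ⟨_, rfl⟩
  obtain ⟨u, hu⟩ : ∃ u, u = Real.log (N / x) := ⟨_, rfl⟩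
  obtain ⟨u', hu'⟩ : ∃ u', u' = Real.log (((N + h : ℕ) : ℝ) / x) := ⟨_, rfl⟩
  rw [e1] at hlogN
  rw [e1, ← hu', ← hu, ← hLdef]
  rw [← hu', ← hu] at d0 d1 d2
  rw [← hu', ← hLdef] at hlogN
  rw [← hLdef] at hx hxx hsm hsm2 hLpos
  have hA0 : (0 : ℝ) ≤ A := Nat.cast_nonneg _
  have hlL0 : 0 < Real.log L := by linarith
  have hlLL : Real.log L ≤ L := (Real.log_le_sub_one_of_pos hLpos).trans (by linarith)
  have hLJ : 0 < L ^ (J + 1) := by positivity
  have ht2 : Real.log L / L ≤ 1 / 2 := by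
    simpa using hsm2
  have ht0 : 0 ≤ Real.log L / L := by positivity
  obtain ⟨t, ht⟩ : ∃ t, t = Real.log L / L := ⟨_, rfl⟩
  rw [← ht] at hsm ht2 ht0
  have hLt : L * t = Real.log L := by
    rw [ht]
    field_simp
  have hw0 : 0 ≤ Real.exp (-u ^ 2 / 4) / L ^ A := by positivity
  have hg0 : 0 ≤ (1 + ε) / L ^ (J + 1) * ((L + u') ^ (J + 1) * Real.exp (-u' ^ 2 / 2)) := by
    positivity
  rcases le_or_gt |u| (Real.log L) with hcase | hcase
  · -- case (a)
    have hp1 : L ≤ (L + u') * Real.exp (2 * t) := by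
      have h1 : 1 + 2 * t ≤ Real.exp (2 * t) := by
        have := Real.add_one_le_exp (2 * t)
        linarith
      have h2 : L * (1 - t) ≤ L + u' := by
        have := neg_abs_le u
        have h3 : L * (1 - t) = L - Real.log L := by
          rw [mul_sub, hLt, mul_one]
        linarith
      have h4 : 1 ≤ (1 - t) * (1 + 2 * t) := by nlinarith
      have h5 : 0 ≤ 1 - t := by linarith
      calc L = L * 1 := (mul_one L).symm
        _ ≤ L * ((1 - t) * (1 + 2 * t)) := mul_le_mul_of_nonneg_left h4 hLpos.le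
        _ = (L * (1 - t)) * (1 + 2 * t) := by ring
        _ ≤ (L + u') * Real.exp (2 * t) :=
            mul_le_mul h2 h1 (by linarith) hlogN
    have hp2 : L ^ (J + 1) ≤ (L + u') ^ (J + 1) * Real.exp (((J + 1 : ℕ) : ℝ) * (2 * t)) := by
      calc L ^ (J + 1) ≤ ((L + u') * Real.exp (2 * t)) ^ (J + 1) :=
            pow_le_pow_left₀ hLpos.le hp1 _
        _ = (L + u') ^ (J + 1) * Real.exp (((J + 1 : ℕ) : ℝ) * (2 * t)) := by
            rw [mul_pow, Real.exp_nat_mul]
    have h1 : L ^ (J + 1) * Real.exp (-u ^ 2 / 2) ≤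
        (1 + ε) * ((L + u') ^ (J + 1) * Real.exp (-u' ^ 2 / 2)) := by
      have hLu : 0 ≤ (L + u') ^ (J + 1) := pow_nonneg hlogN _
      calc L ^ (J + 1) * Real.exp (-u ^ 2 / 2)
          ≤ ((L + u') ^ (J + 1) * Real.exp (((J + 1 : ℕ) : ℝ) * (2 * t))) *
            Real.exp (-u ^ 2 / 2) := mul_le_mul_of_nonneg_right hp2 (Real.exp_pos _).le
        _ = (L + u') ^ (J + 1) * Real.exp (((J + 1 : ℕ) : ℝ) * (2 * t) + -u ^ 2 / 2) := by
            rw [mul_assoc, ← Real.exp_add]
        _ ≤ (L + u') ^ (J + 1) * Real.exp (Real.log (1 + ε) + -u' ^ 2 / 2) := by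
            apply mul_le_mul_of_nonneg_left (Real.exp_le_exp.2 ?_) hLu
            have h4 : (u' ^ 2 - u ^ 2) / 2 ≤ (h : ℝ) * ((2 * L + 1) / Real.sqrt x) := by
              have h5 : u' ^ 2 - u ^ 2 ≤ (u' - u) * (2 * L + 1) := by
                have h6 : u' ^ 2 - u ^ 2 = (u' - u) * (u + u') := by ring
                rw [h6]
                apply mul_le_mul_of_nonneg_left _ d0
                have := le_abs_self u
                linarith
              have h7 : (u' - u) * (2 * L + 1) ≤ ((h : ℝ) / Real.sqrt x) * (2 * L + 1) :=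
                mul_le_mul_of_nonneg_right d2 (by linarith)
              have h8 : ((h : ℝ) / Real.sqrt x) * (2 * L + 1) =
                  (h : ℝ) * ((2 * L + 1) / Real.sqrt x) := by ring
              have h9 : 0 ≤ (h : ℝ) * ((2 * L + 1) / Real.sqrt x) := by positivity
              linarith
            have h9 : 0 ≤ (h : ℝ) * ((2 * L + 1) / Real.sqrt x) := by positivity
            push_cast
            linarith
        _ = (1 + ε) * ((L + u') ^ (J + 1) * Real.exp (-u' ^ 2 / 2)) := by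
            rw [Real.exp_add, Real.exp_log (by linarith)]
            ring
    have h2 : Real.exp (-u ^ 2 / 2) ≤
        (1 + ε) / L ^ (J + 1) * ((L + u') ^ (J + 1) * Real.exp (-u' ^ 2 / 2)) := by
      rw [div_mul_eq_mul_div, le_div_iff₀ hLJ, mul_comm]
      exact h1
    linarith
  · -- case (b)
    have h1 : Real.exp (-u ^ 2 / 2) ≤ Real.exp (-u ^ 2 / 4) / L ^ A := by
      have hLA : L ^ A = Real.exp (A * Real.log L) := by
        rw [Real.exp_nat_mul, Real.exp_log hLpos]
      rw [hLA, ← Real.exp_sub]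
      apply Real.exp_le_exp.2
      have hu2 : (Real.log L) ^ 2 ≤ u ^ 2 := by
        rw [← sq_abs u]
        exact pow_le_pow_left₀ hlL0.le hcase.le 2
      nlinarith [mul_le_mul_of_nonneg_right (show 4 * (A : ℝ) ≤ Real.log L by linarith) hlL0.le]
    linarith

end Pool.Agent.H95.UL
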