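import Pool.Agent.H14.L2.Wt
import Pool.Agent.H95.UL.Pt

/-!
[H95 UL WT]  MP_8923e7_nt, THEOREM G (uniform laws): the primes `N + h0` in residue classes, uniformly in `h0 ≤ (log x)^B`.
Edited copy of `H14/L2/Wt.lean`.
-/

namespace Pool.Agent.H95.UL

open Finset Filter Pool.Agent.H21.MT Pool.Agent.H14.L2

theorem vp_shiftU (J : ℕ) (B : ℝ) : ∀ᶠ x : ℝ in atTop, ∀ h0 : ℕ, (h0 : ℝ) ≤ Real.log x ^ B →
    ∀ q c : ℕ, 0 < q →
    |∑ N ∈ (Tp x h0).filter (fun N => N % q = c % q), vp J x (N + h0) -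
      ∑ p ∈ (Wp x).filter (fun p : ℕ => (q : ℤ) ∣ (p : ℤ) - ((c + h0 : ℕ) : ℤ)), vp J x p| ≤ 1 := by
  filter_upwards [vp_out J, sq_leU B, eventually_ge_atTop 2] with x h1 h5 hx2 h0 hh0 q c hq
  replace h5 := (h5 h0 hh0).2.1
  have hx0 : 0 < x := by linarith
  have hx1 : 1 ≤ x := by linarith
  have hmod : ∀ N : ℕ, (q : ℤ) ∣ ((N + h0 : ℕ) : ℤ) - ((c + h0 : ℕ) : ℤ) ↔ N % q = c % q := by
    intro N
    have h7 : ((N + h0 : ℕ) : ℤ) - ((c + h0 : ℕ) : ℤ) = (N : ℤ) - c := by push_cast; ring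
    rw [h7]
    constructor
    · intro h8
      have h9 : (c : ℤ) ≡ (N : ℤ) [ZMOD q] := (Int.modEq_iff_dvd).2 h8
      exact ((Int.natCast_modEq_iff.1 h9).symm)
    · intro h8
      have h9 : (c : ℤ) ≡ (N : ℤ) [ZMOD q] := Int.natCast_modEq_iff.2 (Eq.symm h8 : c ≡ N [MOD q])
      exact (Int.modEq_iff_dvd).1 h9
  set A := (Tp x h0).filter (fun N => N % q = c % q) with hA
  set G := (Wp x).filter (fun p : ℕ => (q : ℤ) ∣ (p : ℤ) - ((c + h0 : ℕ) : ℤ)) with hG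
  have hs : Real.sqrt x * Real.sqrt x = x := Real.mul_self_sqrt hx0.le
  have hs1 : 1 ≤ Real.sqrt x := by
    rw [Real.one_le_sqrt]
    exact hx1
  have e1 : ∑ N ∈ A, vp J x (N + h0) = ∑ p ∈ A.image (fun N => N + h0), vp J x p :=
    (Finset.sum_image (f := fun p => vp J x p) fun a _ b _ hab =>
      Nat.add_right_cancel hab).symm
  have hsub : A.image (fun N => N + h0) ⊆ G := by
    intro p hp
    obtain ⟨N, hN, rfl⟩ := Finset.mem_image.1 hp
    rw [hA, Finset.mem_filter, Tp, Finset.mem_filter, Win, Finset.mem_Ioc] at hN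
    obtain ⟨⟨⟨hN1, hN2⟩, hNp⟩, hNq⟩ := hN
    rw [hG, Finset.mem_filter, Wp, Finset.mem_filter, Finset.mem_Icc]
    refine ⟨⟨⟨hNp.one_le, ?_⟩, hNp⟩, (hmod N).2 hNq⟩
    have h6 : (N : ℝ) ≤ x ^ 2 := (Nat.le_floor_iff (by positivity)).1 hN2
    rw [Nat.le_floor_iff (by positivity)]
    push_cast
    have h7 : x ^ 2 + x ≤ x ^ 3 := by nlinarith [mul_pos hx0 hx0]
    have h8 : Real.sqrt x ≤ x := by nlinarith
    linarith
  have hmid : ∀ p ∈ G, p ∉ A.image (fun N => N + h0) →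
      p ∈ (Wp x).filter (fun p : ℕ => (p : ℝ) ≤ 2 * Real.sqrt x ∨ x ^ 2 < p) := by
    intro p hp hpn
    rw [hG, Finset.mem_filter] at hp
    rw [Finset.mem_filter]
    refine ⟨hp.1, ?_⟩
    by_contra hcon
    push Not at hcon
    apply hpn
    have hle : (h0 : ℝ) ≤ p := by linarith [hcon.1]
    have hle' : h0 ≤ p := by exact_mod_cast hle
    rw [Finset.mem_image]
    refine ⟨p - h0, ?_, Nat.sub_add_cancel hle'⟩
    have hc : ((p - h0 : ℕ) : ℝ) = p - h0 := by push_cast [Nat.cast_sub hle']; ring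
    have hpp : p.Prime := by
      have := hp.1
      rw [Wp, Finset.mem_filter] at this
      exact this.2
    rw [hA, Finset.mem_filter, Tp, Finset.mem_filter, Win, Finset.mem_Ioc,
      Nat.sub_add_cancel hle']
    refine ⟨⟨⟨?_, ?_⟩, hpp⟩, ?_⟩
    · rw [Nat.floor_lt (Real.sqrt_nonneg x), hc]
      linarith [hcon.1]
    · rw [Nat.le_floor_iff (by positivity), hc]
      have : (0 : ℝ) ≤ h0 := Nat.cast_nonneg _
      linarith [hcon.2]
    · rw [← hmod, Nat.sub_add_cancel hle']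
      exact hp.2
  rw [e1, abs_sub_comm, ← Finset.sum_sdiff hsub, add_sub_cancel_right,
    abs_of_nonneg (Finset.sum_nonneg fun p _ => vp_nonneg J x p)]
  refine le_trans (Finset.sum_le_sum_of_subset_of_nonneg ?_ fun p _ _ => vp_nonneg J x p) h1
  intro p hp
  rw [Finset.mem_sdiff] at hp
  exact hmid p hp.1 hp.2

theorem up_vpU (κ : ℝ) (hκ : 0 < κ) (hκ1 : κ ≤ 1 / 4) (A : ℕ) : ∃ J : ℕ, ∀ B : ℝ,
    ∀ᶠ x : ℝ in atTop, ∀ h0 : ℕ, (h0 : ℝ) ≤ Real.log x ^ B → ∃ E : ℕ → ℝ, (∀ q, 0 ≤ E q) ∧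
    UP (Tp x h0) (fun N => vp J x (N + h0)) h0 (MM J x) (x ^ (1 / 2 - κ)) E ∧
    (∀ q : ℕ, 1 ≤ q → (q : ℝ) ≤ x ^ (1 / 2 - κ) →
      E q ≤ 2 * x * (Real.log x) ^ (J + 2) / q.totient) ∧
    ∑ q ∈ Icc 1 ⌊x ^ (1 / 2 - κ)⌋₊, E q ≤ 2 * x * (Real.log x) ^ J / (Real.log x) ^ A := by
  obtain ⟨J, hJ⟩ := Pool.Agent.H21.BV.bv2 κ hκ hκ1 A
  refine ⟨J, fun B => ?_⟩
  have hLA : ∀ᶠ x : ℝ in atTop, (Real.log x) ^ A ≤ x ^ (1 / 2 : ℝ) := by
    have h := isLittleO_log_rpow_rpow_atTop (s := 1 / 2) (A : ℝ) (by norm_num : (0 : ℝ) < 1 / 2)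
    filter_upwards [h.bound one_pos, eventually_ge_atTop (1 : ℝ)] with x hx hx1
    have hL : 0 ≤ Real.log x := Real.log_nonneg hx1
    rw [Real.rpow_natCast, Real.norm_of_nonneg (by positivity),
      Real.norm_of_nonneg (Real.rpow_nonneg (by linarith) _), one_mul] at hx
    exact hx
  filter_upwards [hJ, vp_shiftU J B, hLA, eventually_ge_atTop (3 : ℝ)] with x hx hsh hla hx3 h0 hh0
  replace hsh := hsh h0 hh0
  obtain ⟨E, hE0, hE1, hE2, hE3⟩ := hx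
  have hx0 : 0 < x := by linarith
  have hx1 : 1 ≤ x := by linarith
  have hL : 1 ≤ Real.log x := by
    rw [Real.le_log_iff_exp_le (by linarith)]
    linarith [Real.exp_one_lt_d9]
  have hQ : x ^ (1 / 2 - κ) ≤ x ^ (1 / 2 : ℝ) := Real.rpow_le_rpow_of_exponent_le hx1 (by linarith)
  have hhalf : x ^ (1 / 2 : ℝ) * x ^ (1 / 2 : ℝ) = x := by
    rw [← Real.rpow_add hx0]
    norm_num
  have hh1 : 1 ≤ x ^ (1 / 2 : ℝ) := Real.one_le_rpow hx1 (by norm_num)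
  refine ⟨fun q => E q + 1, fun q => by have := hE0 q; linarith, ?_, ?_, ?_⟩
  · intro q c hq hqQ hcop
    have h1 := hE1 q hq hqQ ((c + h0 : ℕ) : ℤ) (by
      exact Nat.isCoprime_iff_coprime.2 hcop)
    have h2 := hsh q c hq
    have h3 := abs_add_le (∑ N ∈ (Tp x h0).filter (fun N => N % q = c % q), vp J x (N + h0) -
      ∑ p ∈ (Wp x).filter (fun p : ℕ => (q : ℤ) ∣ (p : ℤ) - ((c + h0 : ℕ) : ℤ)), vp J x p)
      (∑ p ∈ (Wp x).filter (fun p : ℕ => (q : ℤ) ∣ (p : ℤ) - ((c + h0 : ℕ) : ℤ)), vp J x p -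
        MM J x / q.totient)
    rw [sub_add_sub_cancel] at h3
    linarith
  · intro q hq hqQ
    have h1 := hE2 q hq hqQ
    have hphi : (0 : ℝ) < q.totient := by exact_mod_cast Nat.totient_pos.2 hq
    have hphi2 : (q.totient : ℝ) ≤ x := by
      have h2 : (q.totient : ℝ) ≤ q := by exact_mod_cast Nat.totient_le q
      nlinarith
    have hLJ : 1 ≤ (Real.log x) ^ (J + 2) := one_le_pow₀ hL
    have h3 : (1 : ℝ) ≤ x * (Real.log x) ^ (J + 2) / q.totient := by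
      rw [le_div_iff₀ hphi]
      nlinarith
    have h4 : 2 * x * (Real.log x) ^ (J + 2) / q.totient =
        x * (Real.log x) ^ (J + 2) / q.totient + x * (Real.log x) ^ (J + 2) / q.totient := by ring
    rw [h4]
    linarith
  · rw [Finset.sum_add_distrib, Finset.sum_const, nsmul_eq_mul, mul_one, Nat.card_Icc,
      Nat.add_sub_cancel]
    have h1 : (⌊x ^ (1 / 2 - κ)⌋₊ : ℝ) ≤ x ^ (1 / 2 : ℝ) :=
      (Nat.floor_le (Real.rpow_nonneg hx0.le _)).trans hQ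
    have hLA0 : 0 < (Real.log x) ^ A := by positivity
    have h2 : x ^ (1 / 2 : ℝ) ≤ x * (Real.log x) ^ J / (Real.log x) ^ A := by
      rw [le_div_iff₀ hLA0]
      have h3 : 1 ≤ (Real.log x) ^ J := one_le_pow₀ hL
      calc x ^ (1 / 2 : ℝ) * (Real.log x) ^ A ≤ x ^ (1 / 2 : ℝ) * x ^ (1 / 2 : ℝ) :=
            mul_le_mul_of_nonneg_left hla (by linarith)
        _ = x * 1 := by rw [hhalf, mul_one]
        _ ≤ x * (Real.log x) ^ J := mul_le_mul_of_nonneg_left h3 hx0.le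
    have h4 : 2 * x * (Real.log x) ^ J / (Real.log x) ^ A =
        x * (Real.log x) ^ J / (Real.log x) ^ A + x * (Real.log x) ^ J / (Real.log x) ^ A := by ring
    rw [h4]
    linarith

end Pool.Agent.H95.UL
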