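import Pool.Agent.H14.L2.Pw
import Pool.Agent.H95.UL.Wt

/-!
[H95 UL PW]  MP_8923e7_nt, THEOREM G (uniform laws): from the weight `vp` to `gw`, uniformly in `h0 ≤ (log x)^B`.
Edited copy of `H14/L2/Pw.lean`.
-/

namespace Pool.Agent.H95.UL

open Finset Filter Pool.Agent.H21.MT Pool.Agent.H21.SH Pool.Agent.H92.MM Pool.Agent.H14.L2

theorem pwU (J A : ℕ) (B ε : ℝ) (hε : 0 < ε) (hε1 : ε ≤ 1) : ∀ᶠ x : ℝ in atTop, ∀ h0 : ℕ,
    (h0 : ℝ) ≤ Real.log x ^ B → ∀ N ∈ Win x,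
    |gw x N - vp J x (N + h0) / (Real.log x) ^ (J + 1)| ≤
      2 * ε * (vp J x (N + h0) / (Real.log x) ^ (J + 1)) + 2 * (wN x N / (Real.log x) ^ A) := by
  filter_upwards [lo_ptU J A B ε hε, up_ptU J A B ε hε, eventually_ge_atTop (3 : ℝ)]
    with x h1 h2 hx h0 hh0 N hN
  replace h1 := h1 h0 hh0
  replace h2 := h2 h0 hh0
  have hL : 1 ≤ Real.log x := by
    rw [Real.le_log_iff_exp_le (by linarith)]
    linarith [Real.exp_one_lt_d9]
  have a1 := h1 N hN
  have a2 := h2 N hN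
  have hLJ : 0 < (Real.log x) ^ (J + 1) := by positivity
  have hv : vp J x (N + h0) = (Real.log (N + h0 : ℕ)) ^ (J + 1) * gw x (N + h0) := rfl
  have hv0 := vp_nonneg J x (N + h0)
  obtain ⟨v, hvd⟩ : ∃ v, v = vp J x (N + h0) / (Real.log x) ^ (J + 1) := ⟨_, rfl⟩
  obtain ⟨w, hwd⟩ : ∃ w, w = wN x N / (Real.log x) ^ A := ⟨_, rfl⟩
  have hw0 : 0 ≤ w := by
    rw [hwd]
    have := (wN_pos x N).le
    positivity
  have hvn : 0 ≤ v := by
    rw [hvd]
    positivity
  have b1 : v ≤ (1 + ε) * gw x N + w := by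
    rw [hvd, div_le_iff₀ hLJ, hv, hwd]
    linarith
  have b2 : gw x N ≤ (1 + ε) * v + w := by
    have e1 : (1 + ε) / (Real.log x) ^ (J + 1) * ((Real.log (N + h0 : ℕ)) ^ (J + 1) *
        gw x (N + h0)) = (1 + ε) * v := by
      rw [hvd, hv]
      ring
    rw [e1, ← hwd] at a2
    exact a2
  rw [← hvd, ← hwd, abs_le]
  constructor
  · have h3 : ε * gw x N ≤ ε * ((1 + ε) * v + w) := mul_le_mul_of_nonneg_left b2 hε.le
    have h4 : ε * ((1 + ε) * v + w) ≤ 2 * ε * v + w := by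
      have h5 : ε * (ε * v) ≤ ε * (1 * v) :=
        mul_le_mul_of_nonneg_left (mul_le_mul_of_nonneg_right hε1 hvn) hε.le
      have h6 : ε * w ≤ 1 * w := mul_le_mul_of_nonneg_right hε1 hw0
      nlinarith
    linarith
  · have h3 : 0 ≤ ε * v := mul_nonneg hε.le hvn
    linarith

theorem convU (J A : ℕ) (B ε : ℝ) (hε : 0 < ε) (hε1 : ε ≤ 1) : ∀ᶠ x : ℝ in atTop,
    ∀ h0 : ℕ, (h0 : ℝ) ≤ Real.log x ^ B → ∀ (R : ℕ → Prop) [DecidablePred R] (F : ℕ → ℝ), (∀ N, 0 ≤ F N) → (∀ N ∈ Win x, F N ≤ x) →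
    |∑ N ∈ (Tx x).filter (fun N => R N ∧ (N + h0).Prime), gw x N * F N -
      (∑ N ∈ (Tp x h0).filter R, vp J x (N + h0) * F N) / (Real.log x) ^ (J + 1)| ≤
      2 * ε * ((∑ N ∈ (Tp x h0).filter R, vp J x (N + h0) * F N) / (Real.log x) ^ (J + 1)) +
      2 * ((∑ N ∈ Win x, wN x N * F N) / (Real.log x) ^ A) + 1 := by
  filter_upwards [pwU J A B ε hε hε1, tail_sum, tx_sub, eventually_ge_atTop (3 : ℝ)]
    with x h1 h2 h3 hx h0 hh0 R _ F hF0 hFx
  replace h1 := h1 h0 hh0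
  have hL : 1 ≤ Real.log x := by
    rw [Real.le_log_iff_exp_le (by linarith)]
    linarith [Real.exp_one_lt_d9]
  have e1 : (Tp x h0).filter R = (Win x).filter (fun N => R N ∧ (N + h0).Prime) := by
    unfold Tp
    rw [Finset.filter_filter]
    refine Finset.filter_congr fun N _ => ?_
    tauto
  have hsub : (Tx x).filter (fun N => R N ∧ (N + h0).Prime) ⊆ (Tp x h0).filter R := by
    rw [e1]
    exact Finset.filter_subset_filter _ h3
  set B := (Tp x h0).filter R with hB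
  have hBW : B ⊆ Win x := by
    rw [e1]
    exact Finset.filter_subset _ _
  -- the difference of the windows
  have h4 : |∑ N ∈ (Tx x).filter (fun N => R N ∧ (N + h0).Prime), gw x N * F N -
      ∑ N ∈ B, gw x N * F N| ≤ 1 := by
    rw [abs_sub_comm, ← Finset.sum_sdiff hsub, add_sub_cancel_right,
      abs_of_nonneg (Finset.sum_nonneg fun N _ => mul_nonneg (gw_pos x N).le (hF0 N))]
    refine h2 _ F (Finset.sdiff_subset.trans hBW) ?_ ?_
    · intro N hN hNT
      rw [Finset.mem_sdiff] at hN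
      apply hN.2
      have h5 := hN.1
      rw [e1, Finset.mem_filter] at h5
      exact Finset.mem_filter.2 ⟨hNT, h5.2⟩
    · intro N hN
      exact hFx N (hBW (Finset.mem_sdiff.1 hN).1)
  -- the pointwise comparison
  have h5 : |∑ N ∈ B, gw x N * F N -
      (∑ N ∈ B, vp J x (N + h0) * F N) / (Real.log x) ^ (J + 1)| ≤
      2 * ε * ((∑ N ∈ B, vp J x (N + h0) * F N) / (Real.log x) ^ (J + 1)) +
      2 * ((∑ N ∈ Win x, wN x N * F N) / (Real.log x) ^ A) := by
    have f1 : ∑ N ∈ B, gw x N * F N - (∑ N ∈ B, vp J x (N + h0) * F N) / (Real.log x) ^ (J + 1) =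
        ∑ N ∈ B, (gw x N - vp J x (N + h0) / (Real.log x) ^ (J + 1)) * F N := by
      rw [Finset.sum_div, ← Finset.sum_sub_distrib]
      refine Finset.sum_congr rfl fun N _ => ?_
      ring
    have f2 : ∑ N ∈ B, (2 * ε * (vp J x (N + h0) / (Real.log x) ^ (J + 1)) +
        2 * (wN x N / (Real.log x) ^ A)) * F N ≤
        2 * ε * ((∑ N ∈ B, vp J x (N + h0) * F N) / (Real.log x) ^ (J + 1)) +
        2 * ((∑ N ∈ Win x, wN x N * F N) / (Real.log x) ^ A) := by
      have f3 : ∑ N ∈ B, (2 * ε * (vp J x (N + h0) / (Real.log x) ^ (J + 1)) +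
          2 * (wN x N / (Real.log x) ^ A)) * F N =
          2 * ε * ((∑ N ∈ B, vp J x (N + h0) * F N) / (Real.log x) ^ (J + 1)) +
          2 * ((∑ N ∈ B, wN x N * F N) / (Real.log x) ^ A) := by
        rw [Finset.sum_div, Finset.sum_div, Finset.mul_sum, Finset.mul_sum,
          ← Finset.sum_add_distrib]
        refine Finset.sum_congr rfl fun N _ => ?_
        ring
      rw [f3]
      have f4 : ∑ N ∈ B, wN x N * F N ≤ ∑ N ∈ Win x, wN x N * F N :=
        Finset.sum_le_sum_of_subset_of_nonneg hBW fun N _ _ =>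
          mul_nonneg (wN_pos x N).le (hF0 N)
      have f5 : (∑ N ∈ B, wN x N * F N) / (Real.log x) ^ A ≤
          (∑ N ∈ Win x, wN x N * F N) / (Real.log x) ^ A :=
        div_le_div_of_nonneg_right f4 (by positivity)
      linarith
    rw [f1]
    refine (Finset.abs_sum_le_sum_abs _ _).trans ((Finset.sum_le_sum fun N hN => ?_).trans f2)
    rw [abs_mul, abs_of_nonneg (hF0 N)]
    exact mul_le_mul_of_nonneg_right (h1 N (hBW hN)) (hF0 N)
  have h6 := abs_sub_le (∑ N ∈ (Tx x).filter (fun N => R N ∧ (N + h0).Prime), gw x N * F N)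
    (∑ N ∈ B, gw x N * F N) ((∑ N ∈ B, vp J x (N + h0) * F N) / (Real.log x) ^ (J + 1))
  linarith

end Pool.Agent.H95.UL
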