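import Pool.Agent.H95.L1.One
import Pool.Agent.H95.UL.Nrm
import Pool.Agent.H95.UL.Fams

/-!
[H95 UL ONE]  MP_8923e7_nt, THEOREM G (uniform laws): the law (L1), uniformly in the shifts `h`, the modulus `W` and the class `b`
(`primorial w ∣ W`, `W ≤ (log x)^A`, the primes of the differences divide `W`).  Edited copy of `H95/L1/One.lean`.
-/

namespace Pool.Agent.H95.UL

open Finset Filter Topology Pool.Agent.H92.MM Pool.Agent.H95.L1

theorem one_lawU (η Θ : ℝ) (hη : 0 < η) (hη1 : η ≤ 1 / 8) (hΘ : 0 < Θ) : ∃ c0 : ℝ, 0 < c0 ∧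
    ∀ (ι : Type) [Fintype ι] [DecidableEq ι] [Nonempty ι] (a : ℝ) (L : ℕ), 0 < a →
      a * 2 ^ L ≤ 1 / 20 → (Fintype.card ι : ℝ) * a ≤ c0 → ∀ B : ℝ, ∃ w0 : ℕ, ∀ w : ℕ, w0 ≤ w →
        ∀ᶠ x : ℝ in atTop, ∀ (h : ι → ℕ) (W b : ℕ), 0 < W → primorial w ∣ W →
          (W : ℝ) ≤ Real.log x ^ B →
          (∀ i j : ι, i ≠ j → ∀ p : ℕ, p.Prime → (p : ℤ) ∣ (h i : ℤ) - h j → p ∣ W) →
          (∀ j, Nat.Coprime (b + h j) W) →
          App x a L h W b η (Real.exp (-(Θ / a))) (fun _ => 1) 1 := by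
  obtain ⟨c0, hc0, hc1, hF⟩ := Pool.Agent.H95.FL.fundamental (1 / 8) (Θ + 1) (by norm_num)
    (by linarith)
  refine ⟨c0, hc0, ?_⟩
  intro ι _ _ _ a L ha haL hKa B
  have hK : 1 ≤ Fintype.card ι := Fintype.card_pos
  have hK' : (1 : ℝ) ≤ Fintype.card ι := by exact_mod_cast hK
  obtain ⟨w1, hw1, hF1⟩ := hF (Fintype.card ι) hK
  have haK : a ≤ c0 / (Fintype.card ι : ℝ) := by
    rw [le_div_iff₀ (by linarith)]
    linarith
  have ha20 : a ≤ 1 / 20 := by
    have h1 : (1 : ℝ) ≤ 2 ^ L := one_le_pow₀ (by norm_num)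
    nlinarith
  obtain ⟨x0, hx0, hF2⟩ := hF1 a ha haK
  refine ⟨w1, ?_⟩
  intro w hw
  have hw1' : w1 ≤ w := hw
  have hKw : 2 * Fintype.card ι ≤ w := by omega
  set ε : ℝ := Real.exp (-(Θ / a)) with hε
  have hεpos : 0 < ε := Real.exp_pos _
  have hfin := lev_finite (ι := ι) a η ha L
  have hev : ∀ᶠ x : ℝ in atTop, ∀ A ∈ {A : ι → Fin L → ℕ | sl a L A ≤ η},
      |GA (TI x a L) A - sv L A| ≤ min (ε / 8) 1 := by
    rw [Filter.eventually_all_finite hfin]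
    intro A _
    have h1 := GA_tendsto a ha L A
    have h2 := (Metric.tendsto_nhds.1 h1) (min (ε / 8) 1) (by positivity)
    filter_upwards [h2] with x hx
    rw [Real.dist_eq] at hx
    exact hx.le
  have hpow : ∀ᶠ x : ℝ in atTop, 4 * x ^ (-(5 / 8) : ℝ) ≤ ε / 8 := by
    have h1 : Tendsto (fun x : ℝ => 4 * x ^ (-(5 / 8) : ℝ)) atTop (𝓝 (4 * 0)) :=
      (tendsto_rpow_neg_atTop (by norm_num)).const_mul 4
    rw [mul_zero] at h1
    have h2 := h1.eventually (ge_mem_nhds (show (0 : ℝ) < ε / 8 by positivity))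
    exact h2
  have hxw : ∀ᶠ x : ℝ in atTop, Real.log x ^ B < x ^ a := log_ltU B a ha
  filter_upwards [eventually_ge_atTop x0, eventually_ge_atTop (1 : ℝ), ud_win, mass_ge,
    nm_geU (Fintype.card ι) w hKw B a (1 / 8) ha (by linarith) (by norm_num), hev, hpow, hxw]
    with x hx hx1 hud hmass hnmU hGA hsmall hwx
  intro h W b hW0 hwW hWle hdif hb A hA
  have hnm := hnmU W hW0 hwW hWle
  have hpW : ∀ p : ℕ, p.Prime → ¬ p ∣ W → w < p := by
    intro p hp hpd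
    by_contra hle
    push Not at hle
    exact hpd (((hp.dvd_primorial_iff).2 hle).trans hwW)
  have hdiff : ∀ p : ℕ, p.Prime → ¬ p ∣ W → ∀ i j : ι, i ≠ j → ¬ (p : ℤ) ∣ (h i : ℤ) - h j :=
    fun p hp hpd i j hij hdvd => hpd (hdif i j hij p hp hdvd)
  have hxpos : 0 < x := by linarith
  set P : Finset ℕ := PP x a W with hP
  have hPmem : ∀ p ∈ P, p.Prime ∧ ¬ p ∣ W ∧ (p : ℝ) < x ^ a := fun p hp => mem_PP.1 hp
  obtain ⟨fl, fu, hsand⟩ := hF2 x hx P (fun p hp => ⟨(hPmem p hp).1,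
    lt_of_le_of_lt hw1' (hpW p (hPmem p hp).1 (hPmem p hp).2.1), (hPmem p hp).2.2.le⟩)
  have hs := hsand (fun p => (Fintype.card ι : ℝ) / p) (fun p hp => by
    have hp0 : (0 : ℝ) < p := by exact_mod_cast (hPmem p hp).1.pos
    refine ⟨by positivity, ?_⟩
    apply div_le_div_of_nonneg_right _ hp0.le
    linarith)
  have hTI : ∀ i, ∀ p ∈ TI x a L i, p.Prime ∧ ¬ p ∣ W ∧ p ∉ P := by
    intro i p hp
    have h1 := TI_ge hx1 ha hp
    have h2 := (mem_TI.1 hp).1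
    refine ⟨h2, ?_, ?_⟩
    · intro hd
      have h3 := Nat.le_of_dvd hW0 hd
      have h4 : (p : ℝ) ≤ W := by exact_mod_cast h3
      linarith
    · intro hpP
      linarith [(hPmem p hpP).2.2]
  have hmain := sm_sum hud (fun N _ => (Pool.Agent.H21.MT.gw_pos x N).le)
    (by linarith : (0 : ℝ) ≤ mass x) h W b P hW0 (fun p hp => ⟨(hPmem p hp).1, (hPmem p hp).2.1⟩)
    (fun p hp => hdiff p (hPmem p hp).1 (hPmem p hp).2.1)
    (x ^ (1 / 8 : ℝ)) (Real.exp (-((Θ + 1) / a))) fl fu hs (TI x a L) A hTI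
    (fun i i' hii => TI_disj hx1 ha L i i' hii) (fun i p hp => hdiff p (hTI i p hp).1 (hTI i p hp).2.1) (by positivity)
  rw [← nm_eq x a W (Fintype.card ι)] at hmain
  set n : ℝ := nm x a W (Fintype.card ι) with hn
  have hn0 : 0 < n := lt_of_lt_of_le (by positivity) hnm
  -- the average
  have hAv : Av x a h W b (fun N => sm x a L h A N * (fun _ => (1 : ℝ)) N) =
      (∑ N ∈ (Tx x).filter (fun N => N % W = b % W ∧ Pool.Agent.H95.FL.DP h P N = ∅),
        Pool.Agent.H21.MT.gw x N *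
          ∏ j, ∏ i, ((((TI x a L i).filter (· ∣ N + h j)).card.choose (A j i) : ℕ) : ℝ)) / n := by
    unfold Av
    congr 1
    refine sum_congr ?_ ?_
    · ext N
      simp only [mem_filter]
      rw [adm_iffU x a h W b hb N]
    · intro N _
      show Pool.Agent.H21.MT.gw x N * (sm x a L h A N * 1) = _
      rw [mul_one, sm_eq]
  have hcard : ((All (TI x a L) A).card : ℝ) ≤ x ^ (1 / 8 : ℝ) := by
    refine (card_All_le (TI x a L) A (fun i => x ^ (a * 2 ^ ((i : ℕ) + 1)))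
      (fun i => TI_card hx1 i)).trans ?_
    rw [prod_level hxpos L A]
    exact Real.rpow_le_rpow_of_exponent_le hx1 (hA.trans hη1)
  have hGAx := hGA A hA
  have hG1 : |GA (TI x a L) A - sv L A| ≤ ε / 8 := hGAx.trans (min_le_left _ _)
  have hG2 : GA (TI x a L) A ≤ 2 := by
    have h1 := (abs_le.1 (hGAx.trans (min_le_right _ _))).2
    have h2 := one_sv L A
    linarith
  have hd : Real.exp (-((Θ + 1) / a)) ≤ ε / 8 := by
    have h1 : Real.exp (-((Θ + 1) / a)) = Real.exp (-(Θ / a)) * Real.exp (-(1 / a)) := by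
      rw [← Real.exp_add]; congr 1; ring
    rw [h1, ← hε]
    have h2 : Real.exp (-(1 / a)) ≤ 1 / 8 := by
      have h3 : (20 : ℝ) ≤ 1 / a := by
        rw [le_div_iff₀ ha]; linarith
      have h4 : (8 : ℝ) ≤ Real.exp (1 / a) := by
        have := Real.add_one_le_exp (1 / a)
        linarith
      rw [Real.exp_neg, inv_eq_one_div]
      exact one_div_le_one_div_of_le (by norm_num) h4
    nlinarith
  have hx58 : x ^ (1 / 8 : ℝ) * 4 * x ^ (1 / 8 : ℝ) / n ≤ 4 * x ^ (-(5 / 8) : ℝ) := by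
    rw [div_le_iff₀ hn0]
    have h1 : x ^ (1 / 8 : ℝ) * x ^ (1 / 8 : ℝ) = x ^ (-(5 / 8) : ℝ) * x ^ (1 - 1 / 8 : ℝ) := by
      rw [← Real.rpow_add hxpos, ← Real.rpow_add hxpos]
      norm_num
    have h2 : 0 < x ^ (-(5 / 8) : ℝ) := Real.rpow_pos_of_pos hxpos _
    calc x ^ (1 / 8 : ℝ) * 4 * x ^ (1 / 8 : ℝ) = 4 * (x ^ (1 / 8 : ℝ) * x ^ (1 / 8 : ℝ)) := by ring
      _ = 4 * (x ^ (-(5 / 8) : ℝ) * x ^ (1 - 1 / 8 : ℝ)) := by rw [h1]
      _ ≤ 4 * (x ^ (-(5 / 8) : ℝ) * n) := by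
          gcongr
      _ = _ := by ring
  have hstep : |Av x a h W b (fun N => sm x a L h A N * (fun _ => (1 : ℝ)) N) - GA (TI x a L) A| ≤
      ε / 4 + ε / 8 := by
    rw [hAv]
    rw [show ∀ s g : ℝ, s / n - g = (s - n * g) / n from fun s g => by field_simp]
    rw [abs_div, abs_of_pos hn0, div_le_iff₀ hn0]
    refine hmain.trans ?_
    have h1 : Real.exp (-((Θ + 1) / a)) * n * GA (TI x a L) A ≤ ε / 4 * n := by
      have h2 : 0 ≤ GA (TI x a L) A := GA_nonneg _ _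
      have h3 : Real.exp (-((Θ + 1) / a)) * GA (TI x a L) A ≤ ε / 8 * 2 := by
        apply mul_le_mul hd hG2 h2 (by positivity)
      nlinarith
    have h4 : x ^ (1 / 8 : ℝ) * 4 * ((All (TI x a L) A).card : ℝ) ≤ ε / 8 * n := by
      have h5 : x ^ (1 / 8 : ℝ) * 4 * ((All (TI x a L) A).card : ℝ) ≤
          x ^ (1 / 8 : ℝ) * 4 * x ^ (1 / 8 : ℝ) := by
        gcongr
      refine h5.trans ?_
      have h6 := hx58.trans hsmall
      rwa [div_le_iff₀ hn0] at h6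
    linarith
  have hfinal : |Av x a h W b (fun N => sm x a L h A N * (fun _ => (1 : ℝ)) N) - sv L A| ≤ ε := by
    calc _ ≤ |Av x a h W b (fun N => sm x a L h A N * (fun _ => (1 : ℝ)) N) - GA (TI x a L) A| +
          |GA (TI x a L) A - sv L A| := abs_sub_le _ _ _
      _ ≤ (ε / 4 + ε / 8) + ε / 8 := add_le_add hstep hG1
      _ ≤ ε := by linarith
  rw [mul_one]
  exact hfinal

end Pool.Agent.H95.UL
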